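import Pool.Agent.H.MP_ccba21_an.A
import Pool.Agent.H.MP_ccba21_an.C

set_option autoImplicit false

namespace Pool.Agent.Results.MP_ccba21_an.Q2No

open Set Filter Topology MeasureTheory Metric

/-- values of the normalised Vandermonde product of `n` points of `E` -/
def fek (E : Set ℂ) (n : ℕ) : Set ℝ :=
  {t | ∃ z : Fin n → ℂ, (∀ i, z i ∈ E) ∧
    t = (∏ i, ∏ j ∈ Finset.Ioi i, ‖z i - z j‖) ^ ((2 : ℝ) / (n * (n - 1)))}

/-- `R` is the transfinite diameter of `E` -/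
def IsTD (E : Set ℂ) (R : ℝ) : Prop :=
  ∃ d : ℕ → ℝ, (∀ n, 2 ≤ n → IsGreatest (fek E n) (d n)) ∧ Tendsto d atTop (𝓝 R)

/-- `τ` is an eigenvalue of the logarithmic potential operator on `L²(Ω)` -/
def IsEig (Ω : Set ℂ) (τ : ℝ) : Prop :=
  ∃ u : ℂ → ℝ, MemLp u 2 (volume.restrict Ω) ∧ ¬ (u =ᵐ[volume.restrict Ω] 0) ∧
    ∀ᵐ x ∂volume.restrict Ω, ∫ y in Ω, Real.log (1 / ‖x - y‖) * u y = τ * u x

theorem result : ∃ (Ω : Set ℂ) (R s : ℝ), IsOpen Ω ∧ IsConnected Ω ∧ Bornology.IsBounded Ω ∧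
    IsTD (closure Ω) R ∧ 1 < R ∧ s < 0 ∧ IsEig (ball 0 R) s ∧ ∀ t, IsEig Ω t → s < t := by
  obtain ⟨Ω, hΩ⟩ : ∃ Ω : Set ℂ, Ω = Ioo (-10000 : ℝ) 10000 ×ℂ Ioo (-1 : ℝ) 1 := ⟨_, rfl⟩
  have ho : IsOpen Ω := hΩ ▸ isOpen_Ioo.reProdIm isOpen_Ioo
  have hb : Bornology.IsBounded Ω := hΩ ▸ (isBounded_Ioo _ _).reProdIm (isBounded_Ioo _ _)
  have hc : IsConnected Ω := by
    rw [hΩ]
    exact Convex.isConnected (((convex_Ioo _ _).linear_preimage Complex.reLm).inter
      ((convex_Ioo _ _).linear_preimage Complex.imLm)) ⟨0, by simp [Complex.mem_reProdIm]⟩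
  obtain ⟨d, R, hd, hR, hR'⟩ := H.MP_ccba21_an.exists_T hb.isCompact_closure
    (L := 9999) (by norm_num) fun x hx => subset_closure (by
      rw [abs_le] at hx
      simp only [hΩ, Complex.mem_reProdIm, Complex.ofReal_re, Complex.ofReal_im, mem_Ioo]
      refine ⟨⟨by linarith, by linarith⟩, by norm_num, by norm_num⟩)
  obtain ⟨s, hs, hs'⟩ := H.MP_ccba21_an.ball_eig (R := R) (by linarith)
  refine ⟨Ω, R, s, ho, hc, hb, ⟨d, hd, hR⟩, by linarith, by nlinarith, hs', fun t ht => ?_⟩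
  have hv : volume.real Ω = 40000 := by
    have := Complex.volume_preserving_equiv_real_prod.measure_preimage_equiv
      (Ioo (-10000 : ℝ) 10000 ×ˢ Ioo (-1 : ℝ) 1)
    have e : Ω = Complex.measurableEquivRealProd ⁻¹' (Ioo (-10000 : ℝ) 10000 ×ˢ Ioo (-1 : ℝ) 1) := by
      rw [hΩ]; rfl
    rw [Measure.real, e, this, Measure.volume_eq_prod, Measure.prod_prod]
    simp; norm_num
  have h1 := H.MP_ccba21_an.eig_le ho.measurableSet (D := 40000) (by norm_num)
    hb.measure_lt_top.ne (fun x hx y hy => by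
      simp only [hΩ, Complex.mem_reProdIm, mem_Ioo] at hx hy
      rw [mem_ball, dist_eq_norm]
      refine (Complex.norm_le_abs_re_add_abs_im _).trans_lt ?_
      have h1 : |(y - x).re| < 20000 := by
        rw [Complex.sub_re, abs_lt]; constructor <;> linarith [hx.1.1, hx.1.2, hy.1.1, hy.1.2]
      have h2 : |(y - x).im| < 2 := by
        rw [Complex.sub_im, abs_lt]; constructor <;> linarith [hx.2.1, hx.2.2, hy.2.1, hy.2.2]
      linarith) ht
  rw [hv] at h1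
  have h2 : Real.log 40000 ≤ 400 := by
    have := Real.log_le_sub_one_of_pos (show (0 : ℝ) < 200 by norm_num)
    rw [show (40000 : ℝ) = 200 ^ 2 by norm_num, Real.log_pow]
    push_cast; linarith
  have h3 := Real.log_nonneg (show (1 : ℝ) ≤ 40000 by norm_num)
  have h4 : t ^ 2 ≤ 30000000 ^ 2 := by nlinarith
  have h5 := (abs_le_of_sq_le_sq' h4 (by norm_num)).1
  nlinarith

end Pool.Agent.Results.MP_ccba21_an.Q2No
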